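import Pool.Agent.H85.Ev.Riesz
import Pool.Agent.H2.Ev.Ineq

/-!
# Weak solutions exist (MP_898b17_an, M1)
-/

open MeasureTheory Set Metric Filter Topology ContDiff
open scoped ENNReal NNReal RealInnerProductSpace

namespace Pool.Agent.H41.Ev

variable {Ω : Set ℂ}

/-- Riesz: `-Δu + n u = g` in `Ω`. -/
theorem exists_weak (hΩ : IsOpen Ω) (hfin : volume Ω < ⊤) {n : ℝ} (hn : 0 ≤ n) {g : ℂ → ℝ}
    (hg : MemLp g 2 volume) : ∃ u G, H10 Ω u G ∧ ∀ v H, H10 Ω v H →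
      (∫ z, ⟪G z, H z⟫) + n * (∫ z, u z * v z) = ∫ z, g z * v z := by
  obtain ⟨C, -, hC⟩ := poincare
  exact exists_weak_of_poincare (fun u G h => hC Ω u G hΩ hfin h) hn hg

theorem exists_torsion (hΩ : IsOpen Ω) (hfin : volume Ω < ⊤) : ∃ w W, IsTorsion Ω w W := by
  obtain ⟨C, -, hC⟩ := poincare
  exact exists_torsion_of_poincare hΩ hfin (fun u G h => hC Ω u G hΩ hfin h)

end Pool.Agent.H41.Ev
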