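import Pool.Agent.H41.Ev.Basic

/-!
# `H¹₀` as a Hilbert space: weak solutions (MP_898b17_an, M1)
-/

open MeasureTheory Set Metric Filter Topology ContDiff
open scoped ENNReal NNReal RealInnerProductSpace

namespace Pool.Agent.H41.Ev

private theorem real_inner_eq_mul (x y : ℝ) : (⟪x, y⟫ : ℝ) = x * y := by
  simp [mul_comm]

/-- `L²(ℂ; ℝ) × L²(ℂ; ℂ)` as a Hilbert space. -/
abbrev LL : Type :=
  WithLp 2 ((Lp ℝ 2 (volume : Measure ℂ)) × (Lp ℂ 2 (volume : Measure ℂ)))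

/-- `H¹₀(Ω)` as a subspace of `L² × L²`. -/
noncomputable def H10sub (Ω : Set ℂ) : Submodule ℝ LL where
  carrier := {p | H10 Ω (p.fst : ℂ → ℝ) (p.snd : ℂ → ℂ)}
  zero_mem' := H10.zero.congr (Lp.coeFn_zero ℝ 2 _).symm (Lp.coeFn_zero ℂ 2 _).symm
  add_mem' := fun {p q} hp hq =>
    (H10.add hp hq).congr (Lp.coeFn_add p.fst q.fst).symm (Lp.coeFn_add p.snd q.snd).symm
  smul_mem' := fun c p hp =>
    (H10.const_mul hp c).congr (Lp.coeFn_smul c p.fst).symm (Lp.coeFn_smul c p.snd).symm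

theorem mem_H10sub {Ω : Set ℂ} {p : LL} :
    p ∈ H10sub Ω ↔ H10 Ω (p.fst : ℂ → ℝ) (p.snd : ℂ → ℂ) := Iff.rfl

theorem isClosed_H10sub (Ω : Set ℂ) : IsClosed (H10sub Ω : Set LL) := by
  rw [← isSeqClosed_iff_isClosed]
  intro x p hx hxp
  have h1 : Tendsto (fun n => (x n).fst) atTop (𝓝 p.fst) :=
    ((WithLp.fstL 2 ℝ _ _).continuous.tendsto p).comp hxp
  have h2 : Tendsto (fun n => (x n).snd) atTop (𝓝 p.snd) :=
    ((WithLp.sndL 2 ℝ _ _).continuous.tendsto p).comp hxp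
  rw [Lp.tendsto_Lp_iff_tendsto_eLpNorm'] at h1 h2
  exact H10.of_tendsto (fun n => hx n) (Lp.memLp _) (Lp.memLp _) h1 h2

instance (Ω : Set ℂ) : CompleteSpace (H10sub Ω) := (isClosed_H10sub Ω).completeSpace_coe

variable {Ω Ω' U : Set ℂ} {u v w w' : ℂ → ℝ} {G H W W' : ℂ → ℂ} {φ ψ : ℂ → ℝ}

/-- The element of `H10sub Ω` given by a pair. -/
noncomputable def H10.toSub (h : H10 Ω u G) : H10sub Ω :=
  ⟨WithLp.toLp 2 (h.1.toLp u, h.2.toLp G),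
    h.congr (h.1.coeFn_toLp).symm (h.2.coeFn_toLp).symm⟩

/-- The bilinear form `∫⟪G, H⟫ + n ∫ u v`. -/
noncomputable def form (Ω : Set ℂ) (n : ℝ) : H10sub Ω →L[ℝ] H10sub Ω →L[ℝ] ℝ :=
  (innerSL ℝ).bilinearComp ((WithLp.sndL 2 ℝ _ _).comp (H10sub Ω).subtypeL)
      ((WithLp.sndL 2 ℝ _ _).comp (H10sub Ω).subtypeL) +
    n • (innerSL ℝ).bilinearComp ((WithLp.fstL 2 ℝ _ _).comp (H10sub Ω).subtypeL)
      ((WithLp.fstL 2 ℝ _ _).comp (H10sub Ω).subtypeL)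

theorem form_apply (n : ℝ) (p q : H10sub Ω) :
    form Ω n p q = (⟪(p : LL).snd, (q : LL).snd⟫ : ℝ) + n * (⟪(p : LL).fst, (q : LL).fst⟫ : ℝ) := by
  rfl

/-- Riesz: `-Δu + n u = g` in `Ω`, given a Poincaré inequality on `Ω`. -/
theorem exists_weak_of_poincare {C : ℝ}
    (hP : ∀ u G, H10 Ω u G → ∫ z, u z ^ 2 ≤ C * ∫ z, ‖G z‖ ^ 2) {n : ℝ} (hn : 0 ≤ n) {g : ℂ → ℝ}
    (hg : MemLp g 2 volume) : ∃ u G, H10 Ω u G ∧ ∀ v H, H10 Ω v H →
      (∫ z, ⟪G z, H z⟫) + n * (∫ z, u z * v z) = ∫ z, g z * v z := by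
  have hco : IsCoercive (form Ω n) := by
    refine ⟨1 / (1 + |C|), by positivity, fun p => ?_⟩
    rw [form_apply]
    have h1 := hP _ _ p.2
    have h2 : ‖p‖ * ‖p‖ = ‖(p : LL).fst‖ ^ 2 + ‖(p : LL).snd‖ ^ 2 := by
      have h3 : ‖(p : LL)‖ ^ 2 = ‖(p : LL).fst‖ ^ 2 + ‖(p : LL).snd‖ ^ 2 :=
        WithLp.prod_norm_sq_eq_of_L2 _
      rw [← h3, sq]
      rfl
    have h3 : ‖(p : LL).fst‖ ^ 2 = ∫ z, ((p : LL).fst z) ^ 2 := by
      rw [← real_inner_self_eq_norm_sq, L2.inner_def]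
      congr 1
      ext z
      rw [real_inner_self_eq_norm_sq, Real.norm_eq_abs, sq_abs]
    have h4 : ‖(p : LL).snd‖ ^ 2 = ∫ z, ‖(p : LL).snd z‖ ^ 2 := by
      rw [← real_inner_self_eq_norm_sq, L2.inner_def]
      congr 1
      ext z
      rw [real_inner_self_eq_norm_sq]
    rw [← h3, ← h4] at h1
    have h5 : ‖(p : LL).fst‖ ^ 2 ≤ |C| * ‖(p : LL).snd‖ ^ 2 :=
      h1.trans (mul_le_mul_of_nonneg_right (le_abs_self _) (by positivity))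
    rw [mul_assoc, h2, real_inner_self_eq_norm_sq, real_inner_self_eq_norm_sq]
    have h6 : 1 / (1 + |C|) * (‖(p : LL).fst‖ ^ 2 + ‖(p : LL).snd‖ ^ 2) ≤
        ‖(p : LL).snd‖ ^ 2 := by
      rw [one_div, inv_mul_le_iff₀ (by positivity)]
      linarith
    have h7 : 0 ≤ n * ‖(p : LL).fst‖ ^ 2 := by positivity
    linarith
  set ℓ : H10sub Ω →L[ℝ] ℝ :=
    (innerSL ℝ (hg.toLp g)).comp ((WithLp.fstL 2 ℝ _ _).comp (H10sub Ω).subtypeL) with hℓ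
  set r : H10sub Ω := (InnerProductSpace.toDual ℝ (H10sub Ω)).symm ℓ with hr
  set p : H10sub Ω := hco.continuousLinearEquivOfBilin.symm r with hp
  have key : ∀ q : H10sub Ω, form Ω n p q = (⟪hg.toLp g, (q : LL).fst⟫ : ℝ) := by
    intro q
    rw [← hco.continuousLinearEquivOfBilin_apply, hp, ContinuousLinearEquiv.apply_symm_apply, hr,
      InnerProductSpace.toDual_symm_apply]
    rfl
  refine ⟨(p : LL).fst, (p : LL).snd, p.2, fun v H h => ?_⟩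
  have h1 := key h.toSub
  rw [form_apply, L2.inner_def, L2.inner_def, L2.inner_def] at h1
  have e1 : ∫ z, (⟪(p : LL).snd z, (h.toSub : LL).snd z⟫ : ℝ) = ∫ z, ⟪(p : LL).snd z, H z⟫ := by
    apply integral_congr_ae
    filter_upwards [h.2.coeFn_toLp] with z hz
    show (⟪(p : LL).snd z, (h.2.toLp H) z⟫ : ℝ) = _
    rw [hz]
  have e2 : ∫ z, (⟪(p : LL).fst z, (h.toSub : LL).fst z⟫ : ℝ) = ∫ z, (p : LL).fst z * v z := by
    apply integral_congr_ae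
    filter_upwards [h.1.coeFn_toLp] with z hz
    show (⟪(p : LL).fst z, (h.1.toLp v) z⟫ : ℝ) = _
    rw [hz, real_inner_eq_mul]
  have e3 : ∫ z, (⟪(hg.toLp g) z, (h.toSub : LL).fst z⟫ : ℝ) = ∫ z, g z * v z := by
    apply integral_congr_ae
    filter_upwards [h.1.coeFn_toLp, hg.coeFn_toLp] with z hz hz'
    show (⟪(hg.toLp g) z, (h.1.toLp v) z⟫ : ℝ) = _
    rw [hz, hz', real_inner_eq_mul]
  rw [e1, e2, e3] at h1
  exact h1

theorem exists_torsion_of_poincare (hΩ : IsOpen Ω) (hfin : volume Ω < ⊤) {C : ℝ}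
    (hP : ∀ u G, H10 Ω u G → ∫ z, u z ^ 2 ≤ C * ∫ z, ‖G z‖ ^ 2) : ∃ w W, IsTorsion Ω w W := by
  have hg : MemLp (Ω.indicator fun _ => (1 : ℝ)) 2 (volume : Measure ℂ) :=
    memLp_indicator_const 2 hΩ.measurableSet 1 (Or.inr hfin.ne)
  obtain ⟨w, W, h1, h2⟩ := exists_weak_of_poincare hP le_rfl hg
  refine ⟨w, W, h1, fun φ hφ => ?_⟩
  have h3 := h2 _ _ hφ.h10
  rw [zero_mul, add_zero] at h3
  rw [h3]
  congr 1
  ext z
  by_cases hz : z ∈ Ω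
  · rw [indicator_of_mem hz, one_mul]
  · rw [image_eq_zero_of_notMem_tsupport (fun h => hz (hφ.2.2 h)), mul_zero]

end Pool.Agent.H41.Ev
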